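import Mathlib
import Pool.Agent.R582.SB.Hyp
import Pool.Agent.R582.SB.Force

/-!
# MP_17aaef_lc, Q1: consistently, the projective sets over some sequence of subsets of a set of
cardinality continuum are not contained in any countably generated `σ`-algebra
-/

namespace Pool.Agent.Results.MP_17aaef_lc.ConsistentlyNot

open Cardinal Set MeasureTheory
open Pool.Agent.R582.SB

/-- The statement of Q1: for every sequence `(A m)` of subsets of a set `E` of cardinality `𝔠` there is
a sequence `(B n)` of subsets of `E` such that every set which is projective over `(A m)` belongs to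
the `σ`-algebra generated by `(B n)`. -/
def Q1 : Prop :=
  ∀ E : Type, #E = 𝔠 → ∀ A : ℕ → Set E, ∃ B : ℕ → Set E, ∀ S : Set E, Proj A S →
    MeasurableSet[MeasurableSpace.generateFrom (range B)] S

/-- (1) If `|Γ| > ℵ₁`, the forcing notion `Cnd W1 Γ W1 id` (where `W1` is the set `ω₁`) is ccc and
forces the hypothesis `Hyp W1 Γ e`. (2) There is `e` such that `e ξ` enumerates the predecessors of
`ξ`, for all `ξ < ω₁`. (3) In ZFC, the hypothesis for such `e` implies that for every set `E` of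
cardinality `𝔠` there is a sequence `(A m)` of subsets of `E` such that no countably generated
`σ`-algebra on `E` contains all sets projective over `(A m)`. (4) So Q1 then fails. -/
theorem result :
    (∀ Γ : Type, ℵ_ 1 < #Γ → Pool.Agent.H631R2.CCC (Cnd W1 Γ W1 id) ∧
      ∀ (e : W1 → ℕ → W1) (p : Cnd W1 Γ W1 id), p ∈ HypN (Cnd W1 Γ W1 id) W1 Γ e) ∧
    (∃ e : W1 → ℕ → W1, ∀ ξ η, η < ξ → ∃ m, e ξ m = η) ∧
    (∀ (W Γ : Type) [LinearOrder W] [WellFoundedLT W] [Nonempty W] (e : W → ℕ → W),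
      (∀ ξ η, η < ξ → ∃ m, e ξ m = η) → Hyp W Γ e → ∀ E : Type, #E = 𝔠 →
        ∃ A : ℕ → Set E, ∀ B : ℕ → Set E, ∃ S : Set E, Proj A S ∧
          ¬ MeasurableSet[MeasurableSpace.generateFrom (range B)] S) ∧
    (∀ (W Γ : Type) [LinearOrder W] [WellFoundedLT W] [Nonempty W] (e : W → ℕ → W),
      (∀ ξ η, η < ξ → ∃ m, e ξ m = η) → Hyp W Γ e → ¬ Q1) := by
  refine ⟨fun Γ hΓ => ⟨ccc Pool.Agent.R582.NR.countable_Iio_omega, fun e p => forced_main Γ hΓ e p⟩,
    exists_enum, fun W Γ _ _ _ e he h E hE => not_proj he h hE, ?_⟩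
  intro W Γ _ _ _ e he h hQ
  obtain ⟨A, hA⟩ := not_proj he h mk_codes
  obtain ⟨B, hB⟩ := hQ _ mk_codes A
  obtain ⟨S, hS, hS'⟩ := hA B
  exact hS' (hB S hS)

end Pool.Agent.Results.MP_17aaef_lc.ConsistentlyNot
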